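import Pool.Agent.P.MP_42d0fe_co.Main

set_option autoImplicit false

namespace Pool.Agent.Results.MP_42d0fe_co.ThinGrids

open Pool.Agent.P.MP_42d0fe_co

/-- The minimum size of a percolating set for 3-neighbour bootstrap percolation on the
`x₁ × x₂ × x₃` grid whose sides, sorted, are `a ≤ b ≤ c` with `2 ≤ a ≤ 6`. -/
theorem result (x₁ x₂ x₃ a b c : ℕ) (hsort : ({x₁, x₂, x₃} : Multiset ℕ) = {a, b, c})
    (hab : a ≤ b) (hbc : b ≤ c) (h2 : 2 ≤ a) (h6 : a ≤ 6) :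
    s3 x₁ x₂ x₃ =
      if a = 2 ∧ b = 2 then (if c = 3 then 6 else (3 * c + 2) / 2)
      else if a = 2 ∧ b = 3 ∧ c = 3 then 8
      else ⌈((a * b + a * c + b * c : ℕ) : ℚ) / 3⌉₊ := by
  rw [s3_perm hsort, ceil_third]
  exact s3_sorted h2 h6 hab hbc

end Pool.Agent.Results.MP_42d0fe_co.ThinGrids
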